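import Pool.Agent.U376.ECov.Basic

set_option linter.unusedSectionVars false
set_option linter.unusedVariables false

namespace Pool.Agent.U376.ECov

open Finset Polynomial

variable {V : Type*} [Fintype V] [DecidableEq V]
variable (G : SimpleGraph V) [DecidableRel G.Adj]

lemma exists_parent (hc : G.Connected) (u v : V) (h : v ≠ u) :
    ∃ w, G.Adj v w ∧ G.dist w u < G.dist v u := by
  obtain ⟨p, hp⟩ := hc.exists_walk_length_eq_dist v u
  cases p with
  | nil => exact absurd rfl h
  | @cons _ w _ hadj q =>
    refine ⟨w, hadj, ?_⟩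
    have h1 := SimpleGraph.dist_le q
    simp only [SimpleGraph.Walk.length_cons] at hp
    omega

lemma exists_other {v : V} (hd : 2 ≤ G.degree v) (x : V) : ∃ w, G.Adj v w ∧ w ≠ x := by
  by_contra hcon
  push Not at hcon
  have h1 : G.neighborFinset v ⊆ {x} := by
    intro w hw
    rw [SimpleGraph.mem_neighborFinset] at hw
    exact mem_singleton.2 (hcon w hw)
  have h2 := card_le_card h1
  rw [SimpleGraph.card_neighborFinset_eq_degree, card_singleton] at h2
  omega

/-- A nonempty set of vertices missing some vertex meets at least one edge more than its size. -/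
lemma card_inc_ge (hc : G.Connected) (hd : ∀ v, 2 ≤ G.degree v) (u : V) (O : Finset V)
    (hu : u ∉ O) (hO : O.Nonempty) : O.card + 1 ≤ (inc G O).card := by
  classical
  have hp : ∀ v, ∃ w, v ≠ u → G.Adj v w ∧ G.dist w u < G.dist v u := by
    intro v
    by_cases h : v = u
    · exact ⟨v, fun h' => absurd h h'⟩
    · obtain ⟨w, hw⟩ := exists_parent G hc u v h
      exact ⟨w, fun _ => hw⟩
  choose p hp using hp
  have hne : ∀ v ∈ O, v ≠ u := fun v hv h => hu (h ▸ hv)
  obtain ⟨v0, hv0, hmax⟩ := O.exists_max_image (fun v => G.dist v u) hO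
  obtain ⟨w, hw, hwp⟩ := exists_other G (hd v0) (p v0)
  have h1 : (O.image (fun v => s(v, p v))).card = O.card := by
    apply card_image_of_injOn
    intro x hx y hy hxy
    simp only [Sym2.eq_iff] at hxy
    rcases hxy with ⟨h, _⟩ | ⟨h, h'⟩
    · exact h
    · have e1 := (hp x (hne x hx)).2
      have e2 := (hp y (hne y hy)).2
      rw [← h] at e2
      rw [h'] at e1
      omega
  have h2 : s(v0, w) ∉ O.image (fun v => s(v, p v)) := by
    rw [mem_image]
    rintro ⟨x, hx, hxe⟩
    rw [Sym2.eq_iff] at hxe
    rcases hxe with ⟨h, h'⟩ | ⟨h, h'⟩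
    · rw [h] at h'; exact hwp h'.symm
    · have e1 := (hp x (hne x hx)).2
      rw [h'] at e1
      have := hmax x hx
      omega
  have h3 : insert s(v0, w) (O.image (fun v => s(v, p v))) ⊆ inc G O := by
    intro e he
    rw [mem_insert, mem_image] at he
    rcases he with rfl | ⟨x, hx, rfl⟩
    · rw [mem_inc, SimpleGraph.mem_edgeFinset]
      exact ⟨hw, v0, hv0, by simp⟩
    · rw [mem_inc, SimpleGraph.mem_edgeFinset]
      exact ⟨(hp x (hne x hx)).1, x, hx, by simp⟩
  have h4 := card_le_card h3
  rw [card_insert_of_notMem h2, h1] at h4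
  exact h4

lemma sum_degree_inc (hc : G.Connected) (u : V) (O : Finset V)
    (hu : u ∉ O) (hO : O.Nonempty) :
    ∑ v ∈ O, G.degree v + 1 ≤ 2 * (inc G O).card := by
  classical
  have hdc : ∑ v ∈ O, G.degree v = ∑ e ∈ inc G O, (O.filter (fun v => v ∈ e)).card := by
    have : ∀ v ∈ O, G.degree v = ((inc G O).filter (fun e => v ∈ e)).card := by
      intro v hv
      rw [← card_star]
      congr 1
      ext e
      rw [mem_star, mem_filter, mem_inc]
      constructor
      · rintro ⟨h1, h2⟩; exact ⟨⟨h1, v, hv, h2⟩, h2⟩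
      · rintro ⟨⟨h1, _⟩, h2⟩; exact ⟨h1, h2⟩
    rw [sum_congr rfl this]
    exact sum_card_bipartiteAbove_eq_sum_card_bipartiteBelow (fun v e => v ∈ e)
  obtain ⟨v0, hv0, hmin⟩ := O.exists_min_image (fun v => G.dist v u) hO
  obtain ⟨w, hw, hwd⟩ := exists_parent G hc u v0 (fun h => hu (h ▸ hv0))
  have hwO : w ∉ O := by
    intro h
    have := hmin w h
    omega
  have he0 : s(v0, w) ∈ inc G O := by
    rw [mem_inc, SimpleGraph.mem_edgeFinset]
    exact ⟨hw, v0, hv0, by simp⟩
  have hlt : ∑ e ∈ inc G O, (O.filter (fun v => v ∈ e)).card < ∑ e ∈ inc G O, 2 := by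
    apply sum_lt_sum
    · intro e he
      induction e using Sym2.ind with
      | _ x y =>
        have : O.filter (fun v => v ∈ s(x, y)) ⊆ {x, y} := by
          intro v hv
          simpa using (mem_filter.1 hv).2
        exact (card_le_card this).trans card_le_two
    · refine ⟨_, he0, ?_⟩
      have : O.filter (fun v => v ∈ s(v0, w)) ⊆ {v0} := by
        intro v hv
        rw [mem_filter, Sym2.mem_iff] at hv
        rcases hv with ⟨h1, rfl | rfl⟩
        · simp
        · exact absurd h1 hwO
      have := card_le_card this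
      rw [card_singleton] at this
      omega
  rw [sum_const, smul_eq_mul] at hlt
  omega

/-- number of degree two vertices in `O` -/
def t2 (O : Finset V) : ℕ := (O.filter (fun v => G.degree v = 2)).card

lemma t2_ge (hc : G.Connected) (hd : ∀ v, 2 ≤ G.degree v) (u : V) (O : Finset V)
    (hu : u ∉ O) (hO : O.Nonempty) (hi : (inc G O).card = O.card + 1) :
    O.card ≤ t2 G O + 1 := by
  have h1 := sum_degree_inc G hc u O hu hO
  rw [hi] at h1
  have h2 : O.card = t2 G O + (O.filter (fun v => ¬ G.degree v = 2)).card := by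
    unfold t2; rw [card_filter_add_card_filter_not]
  have h3 : 2 * O.card + (O.filter (fun v => ¬ G.degree v = 2)).card ≤ ∑ v ∈ O, G.degree v := by
    rw [card_filter, mul_comm, ← smul_eq_mul, ← sum_const, ← sum_add_distrib]
    apply sum_le_sum
    intro v hv
    have := hd v
    split_ifs <;> omega
  omega

/-- the sets of edges at `O` which cover `O` -/
def locCov (O : Finset V) : Finset (Finset (Sym2 V)) :=
  (inc G O).powerset.filter (fun S => ∀ v ∈ O, ∃ e ∈ S, v ∈ e)

lemma locCov_card_le (O : Finset V) : (locCov G O).card ≤ 2 ^ (inc G O).card := by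
  rw [← card_powerset]; exact card_filter_le _ _

lemma two_three (k : ℕ) (hk : 5 ≤ k) : 2 ^ (k + 1) ≤ 3 ^ (k - 1) := by
  induction k, hk using Nat.le_induction with
  | base => norm_num
  | succ n hn ih =>
    obtain ⟨j, rfl⟩ := Nat.exists_eq_add_of_le hn
    have e1 : 5 + j - 1 = 4 + j := by omega
    have e2 : 5 + j + 1 - 1 = 4 + j + 1 := by omega
    rw [e1] at ih
    rw [e2, pow_succ, pow_succ 3]
    omega

lemma star_subset_inc {O : Finset V} {v : V} (hv : v ∈ O) : star G v ⊆ inc G O := by
  intro e he
  rw [mem_star] at he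
  exact (mem_inc G).2 ⟨he.1, v, hv, he.2⟩

lemma four_inj {α : Type*} [DecidableEq α] (x1 x2 x3 x4 : α) (F : Finset (Finset α))
    (hF : ∀ S ∈ F, S ⊆ {x1, x2, x3, x4}) (Q : Bool → Bool → Bool → Bool → Bool)
    (hQ : ∀ S ∈ F, Q (decide (x1 ∈ S)) (decide (x2 ∈ S)) (decide (x3 ∈ S)) (decide (x4 ∈ S)) =
      true) :
    F.card ≤ ((univ : Finset (Bool × Bool × Bool × Bool)).filter
      (fun p => Q p.1 p.2.1 p.2.2.1 p.2.2.2 = true)).card := by
  apply card_le_card_of_injOn
    (fun S => (decide (x1 ∈ S), decide (x2 ∈ S), decide (x3 ∈ S), decide (x4 ∈ S)))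
  · intro S hS
    rw [mem_coe, mem_filter]
    exact ⟨mem_univ _, hQ S hS⟩
  · intro S hS T hT hST
    simp only [Prod.mk.injEq, decide_eq_decide] at hST
    obtain ⟨h1, h2, h3, h4⟩ := hST
    have hS' := hF S hS
    have hT' := hF T hT
    ext x
    constructor
    · intro hx
      have := hS' hx
      simp only [mem_insert, mem_singleton] at this
      rcases this with rfl | rfl | rfl | rfl
      · exact h1.1 hx
      · exact h2.1 hx
      · exact h3.1 hx
      · exact h4.1 hx
    · intro hx
      have := hT' hx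
      simp only [mem_insert, mem_singleton] at this
      rcases this with rfl | rfl | rfl | rfl
      · exact h1.2 hx
      · exact h2.2 hx
      · exact h3.2 hx
      · exact h4.2 hx

/-- Purely set-theoretic count for four edges. -/
lemma four_count {α : Type*} [DecidableEq α] (X A B H : Finset α) (hX : X.card = 4)
    (hA : A ⊆ X) (hB : B ⊆ X) (hH : H ⊆ X) (hA2 : A.card = 2) (hB2 : B.card = 2)
    (hH3 : 3 ≤ H.card) (hAB : (A ∩ B).card ≤ 1) (hABH : ∀ x ∈ A, x ∈ B → x ∉ H) :
    (X.powerset.filter (fun S => (∃ e ∈ S, e ∈ A) ∧ (∃ e ∈ S, e ∈ B) ∧ (∃ e ∈ S, e ∈ H))).card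
      ≤ 9 := by
  classical
  rcases Nat.eq_zero_or_pos (A ∩ B).card with h0 | h0
  · -- disjoint case
    have hdis : Disjoint A B := by
      rw [disjoint_iff_inter_eq_empty]; exact card_eq_zero.1 h0
    have hX' : X = A ∪ B := by
      symm
      apply eq_of_subset_of_card_le (union_subset hA hB)
      rw [card_union_of_disjoint hdis]; omega
    obtain ⟨a1, a2, ha, rfl⟩ := card_eq_two.1 hA2
    obtain ⟨b1, b2, hb, rfl⟩ := card_eq_two.1 hB2
    refine (four_inj a1 a2 b1 b2 _ ?_ (fun p q r s => (p || q) && (r || s)) ?_).trans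
      (by decide)
    · intro S hS
      have := mem_powerset.1 (mem_filter.1 hS).1
      rw [hX'] at this
      intro x hx
      have := this hx
      simp only [mem_union, mem_insert, mem_singleton] at this ⊢
      tauto
    · intro S hS
      obtain ⟨_, ⟨e, he, he'⟩, ⟨f, hf, hf'⟩, _⟩ := mem_filter.1 hS
      simp only [mem_insert, mem_singleton] at he' hf'
      simp only [Bool.and_eq_true, Bool.or_eq_true, decide_eq_true_eq]
      constructor
      · rcases he' with rfl | rfl
        · exact Or.inl he
        · exact Or.inr he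
      · rcases hf' with rfl | rfl
        · exact Or.inl hf
        · exact Or.inr hf
  · obtain ⟨f, hf⟩ := card_pos.1 h0
    have hfA := (mem_inter.1 hf).1
    have hfB := (mem_inter.1 hf).2
    have hfH := hABH f hfA hfB
    have hHX : H = X.erase f := by
      apply eq_of_subset_of_card_le (subset_erase.2 ⟨hH, hfH⟩)
      rw [card_erase_of_mem (hA hfA)]; omega
    have hA1 : (A.erase f).card = 1 := by rw [card_erase_of_mem hfA]; omega
    have hB1 : (B.erase f).card = 1 := by rw [card_erase_of_mem hfB]; omega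
    obtain ⟨a, ha⟩ := card_eq_one.1 hA1
    obtain ⟨b, hb⟩ := card_eq_one.1 hB1
    have haA : a ∈ A ∧ a ≠ f := by
      have : a ∈ A.erase f := by rw [ha]; simp
      rw [mem_erase] at this; exact ⟨this.2, this.1⟩
    have hbB : b ∈ B ∧ b ≠ f := by
      have : b ∈ B.erase f := by rw [hb]; simp
      rw [mem_erase] at this; exact ⟨this.2, this.1⟩
    have hab : a ≠ b := by
      rintro rfl
      have : ({a, f} : Finset α) ⊆ A ∩ B := by
        intro x hx
        simp only [mem_insert, mem_singleton] at hx
        rcases hx with rfl | rfl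
        · exact mem_inter.2 ⟨haA.1, hbB.1⟩
        · exact hf
      have := card_le_card this
      rw [card_pair haA.2] at this
      omega
    have hY : (((X.erase f).erase a).erase b).card = 1 := by
      rw [card_erase_of_mem, card_erase_of_mem, card_erase_of_mem (hA hfA)]
      · omega
      · exact mem_erase.2 ⟨haA.2, hA haA.1⟩
      · exact mem_erase.2 ⟨hab.symm, mem_erase.2 ⟨hbB.2, hB hbB.1⟩⟩
    obtain ⟨g, hg⟩ := card_eq_one.1 hY
    have hXm : ∀ x ∈ X, x = f ∨ x = a ∨ x = b ∨ x = g := by
      intro x hx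
      by_contra hcon
      push Not at hcon
      have : x ∈ ((X.erase f).erase a).erase b :=
        mem_erase.2 ⟨hcon.2.2.1, mem_erase.2 ⟨hcon.2.1, mem_erase.2 ⟨hcon.1, hx⟩⟩⟩
      rw [hg, mem_singleton] at this
      exact hcon.2.2.2 this
    refine (four_inj f a b g _ ?_
      (fun p q r s => (p || q) && (p || r) && (q || r || s)) ?_).trans (by decide)
    · intro S hS x hx
      have := hXm x (mem_powerset.1 (mem_filter.1 hS).1 hx)
      simpa using this
    · intro S hS
      obtain ⟨_, ⟨e1, he1, he1'⟩, ⟨e2, he2, he2'⟩, ⟨e3, he3, he3'⟩⟩ := mem_filter.1 hS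
      simp only [Bool.and_eq_true, Bool.or_eq_true, decide_eq_true_eq]
      refine ⟨⟨?_, ?_⟩, ?_⟩
      · by_cases h : e1 = f
        · rw [← h]; exact Or.inl he1
        · have : e1 ∈ A.erase f := mem_erase.2 ⟨h, he1'⟩
          rw [ha, mem_singleton] at this
          rw [← this]; exact Or.inr he1
      · by_cases h : e2 = f
        · rw [← h]; exact Or.inl he2
        · have : e2 ∈ B.erase f := mem_erase.2 ⟨h, he2'⟩
          rw [hb, mem_singleton] at this
          rw [← this]; exact Or.inr he2
      · rw [hHX, mem_erase] at he3'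
        rcases hXm e3 he3'.2 with h | h | h | h
        · exact absurd h he3'.1
        · rw [← h]; exact Or.inl (Or.inl he3)
        · rw [← h]; exact Or.inl (Or.inr he3)
        · rw [← h]; exact Or.inr he3

lemma star_inter_card {v w : V} (hvw : v ≠ w) : (star G v ∩ star G w).card ≤ 1 := by
  rw [card_le_one]
  intro e he f hf
  rw [mem_inter, mem_star, mem_star] at he hf
  exact one_lt_inter hvw he.1.2 he.2.2 hf.1.2 hf.2.2

/-- the local bound -/
lemma locCov_le (hc : G.Connected) (hd : ∀ v, 2 ≤ G.degree v) (u : V) (O : Finset V)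
    (hu : u ∉ O) (hodd : Odd O.card) (hi : (inc G O).card = O.card + 1) :
    (locCov G O).card ≤ 3 ^ t2 G O := by
  classical
  have hO : O.Nonempty := by
    rw [← card_pos]; exact hodd.pos
  have ht := t2_ge G hc hd u O hu hO hi
  have htle : t2 G O ≤ O.card := card_filter_le _ _
  have hcase : O.card = 1 ∨ O.card = 3 ∨ 5 ≤ O.card := by
    obtain ⟨k, hk⟩ := hodd
    omega
  rcases hcase with h1 | h3 | h5
  · -- one vertex
    obtain ⟨v, rfl⟩ := card_eq_one.1 h1
    have hst : inc G {v} = star G v := by
      ext e; simp [mem_inc, mem_star]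
    have hdeg : G.degree v = 2 := by rw [← card_star, ← hst, hi, h1]
    have ht1 : t2 G {v} = 1 := by
      unfold t2
      rw [filter_singleton, if_pos hdeg, card_singleton]
    rw [ht1]
    have : locCov G {v} ⊆ (inc G {v}).powerset.erase ∅ := by
      intro S hS
      rw [locCov, mem_filter] at hS
      rw [mem_erase]
      refine ⟨?_, hS.1⟩
      rintro rfl
      obtain ⟨e, he, _⟩ := hS.2 v (by simp)
      simp at he
    refine (card_le_card this).trans ?_
    rw [card_erase_of_mem (empty_mem_powerset _), card_powerset, hi, h1]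
    norm_num
  · -- three vertices
    rcases Nat.lt_or_ge (t2 G O) 3 with hlt | hge
    · have ht2 : t2 G O = 2 := by omega
      -- the degree two vertices
      have hne : (O.filter (fun v => ¬ G.degree v = 2)).card = 1 := by
        have : O.card = t2 G O + (O.filter (fun v => ¬ G.degree v = 2)).card := by
          unfold t2; rw [card_filter_add_card_filter_not]
        omega
      obtain ⟨h, hh⟩ := card_eq_one.1 hne
      obtain ⟨a, b, hab, hab'⟩ := card_eq_two.1 ht2
      have ha : a ∈ O ∧ G.degree a = 2 := by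
        have : a ∈ O.filter (fun v => G.degree v = 2) := by rw [hab']; simp
        exact mem_filter.1 this
      have hb : b ∈ O ∧ G.degree b = 2 := by
        have : b ∈ O.filter (fun v => G.degree v = 2) := by rw [hab']; simp
        exact mem_filter.1 this
      have hhO : h ∈ O ∧ ¬ G.degree h = 2 := by
        have : h ∈ O.filter (fun v => ¬ G.degree v = 2) := by rw [hh]; simp
        exact mem_filter.1 this
      have hah : a ≠ h := by rintro rfl; exact hhO.2 ha.2
      have hbh : b ≠ h := by rintro rfl; exact hhO.2 hb.2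
      rw [ht2]
      refine le_trans (card_le_card ?_) (four_count (inc G O) (star G a) (star G b) (star G h)
        (by rw [hi, h3]) (star_subset_inc G ha.1) (star_subset_inc G hb.1)
        (star_subset_inc G hhO.1) (by rw [card_star, ha.2]) (by rw [card_star, hb.2])
        (by rw [card_star]; have := hd h; have := hhO.2; omega) (star_inter_card G hab) ?_)
      · intro S hS
        rw [locCov, mem_filter] at hS
        rw [mem_filter]
        have hsub := mem_powerset.1 hS.1
        have key : ∀ v ∈ O, ∃ e ∈ S, e ∈ star G v := by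
          intro v hv
          obtain ⟨e, he, hve⟩ := hS.2 v hv
          exact ⟨e, he, (mem_star G).2 ⟨((mem_inc G).1 (hsub he)).1, hve⟩⟩
        exact ⟨hS.1, key a ha.1, key b hb.1, key h hhO.1⟩
      · intro e hea heb heh
        rw [mem_star] at hea heb heh
        have := (Sym2.mem_and_mem_iff hab).1 ⟨hea.2, heb.2⟩
        rw [this, Sym2.mem_iff] at heh
        rcases heh.2 with h' | h'
        · exact hah h'.symm
        · exact hbh h'.symm
    · have ht3 : t2 G O = 3 := by omega
      refine (locCov_card_le G O).trans ?_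
      rw [hi, h3, ht3]; norm_num
  · refine (locCov_card_le G O).trans ?_
    rw [hi]
    refine (two_three _ h5).trans ?_
    exact Nat.pow_le_pow_right (by norm_num) (by omega)

/-- the global bound -/
lemma covers_card_lt (hd : ∀ v, 2 ≤ G.degree v) (u : V) (F : Finset (Finset V))
    (hdisj : ∀ O ∈ F, ∀ O' ∈ F, O ≠ O' → Disjoint O O') (hu : ∀ O ∈ F, u ∉ O)
    (hcov : ∀ e ∈ G.edgeFinset, ∃ O ∈ F, e ∈ inc G O)
    (hw : ∀ O ∈ F, (locCov G O).card ≤ 3 ^ t2 G O) :
    (covers G).card < 3 ^ (univ.filter (fun v => G.degree v = 2)).card := by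
  classical
  set Z := G.edgeFinset.powerset.filter (fun S => ∀ O ∈ F, ∀ v ∈ O, ∃ e ∈ S, v ∈ e) with hZ
  have hss : covers G ⊂ Z := by
    rw [ssubset_iff_of_subset]
    · refine ⟨G.edgeFinset \ star G u, ?_, ?_⟩
      · rw [hZ, mem_filter]
        refine ⟨mem_powerset.2 sdiff_subset, fun O hO v hv => ?_⟩
        obtain ⟨w, hw, hwu⟩ := exists_other G (hd v) u
        refine ⟨s(v, w), ?_, by simp⟩
        rw [mem_sdiff, mem_star]
        refine ⟨SimpleGraph.mem_edgeFinset.2 hw, fun h => ?_⟩
        rcases Sym2.mem_iff.1 h.2 with h' | h'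
        · exact hu O hO (h' ▸ hv)
        · exact hwu h'.symm
      · intro h
        obtain ⟨e, he, hue⟩ := ((mem_covers G).1 h).2 u
        rw [mem_sdiff, mem_star] at he
        exact he.2 ⟨he.1, hue⟩
    · intro S hS
      rw [mem_covers] at hS
      rw [hZ, mem_filter]
      exact ⟨mem_powerset.2 hS.1, fun O _ v _ => hS.2 v⟩
  have h1 := card_lt_card hss
  have h2 : Z.card ≤ (F.pi (fun O => locCov G O)).card := by
    apply card_le_card_of_injOn (fun S O _ => S ∩ inc G O)
    · intro S hS
      rw [mem_coe, hZ, mem_filter] at hS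
      rw [mem_coe, mem_pi]
      intro O hO
      rw [locCov, mem_filter]
      refine ⟨mem_powerset.2 inter_subset_right, fun v hv => ?_⟩
      obtain ⟨e, he, hve⟩ := hS.2 O hO v hv
      refine ⟨e, mem_inter.2 ⟨he, (mem_inc G).2 ⟨mem_powerset.1 hS.1 he, v, hv, hve⟩⟩, hve⟩
    · intro S hS T hT hST
      rw [mem_coe, hZ, mem_filter] at hS hT
      have hST' : ∀ O ∈ F, S ∩ inc G O = T ∩ inc G O := by
        intro O hO
        have := congrFun (congrFun hST O) hO
        exact this
      ext e
      constructor
      · intro he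
        obtain ⟨O, hO, heO⟩ := hcov e (mem_powerset.1 hS.1 he)
        have : e ∈ S ∩ inc G O := mem_inter.2 ⟨he, heO⟩
        rw [hST' O hO] at this
        exact (mem_inter.1 this).1
      · intro he
        obtain ⟨O, hO, heO⟩ := hcov e (mem_powerset.1 hT.1 he)
        have : e ∈ T ∩ inc G O := mem_inter.2 ⟨he, heO⟩
        rw [← hST' O hO] at this
        exact (mem_inter.1 this).1
  rw [card_pi] at h2
  have h3 : ∏ O ∈ F, (locCov G O).card ≤ ∏ O ∈ F, 3 ^ t2 G O := prod_le_prod' hw
  rw [prod_pow_eq_pow_sum] at h3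
  have h4 : ∑ O ∈ F, t2 G O ≤ (univ.filter (fun v => G.degree v = 2)).card := by
    have : (F.biUnion (fun O => O.filter (fun v => G.degree v = 2))).card
        = ∑ O ∈ F, t2 G O := by
      apply card_biUnion
      intro O hO O' hO' hne
      exact (hdisj O hO O' hO' hne).mono (filter_subset _ _) (filter_subset _ _)
    rw [← this]
    apply card_le_card
    intro v hv
    rw [mem_biUnion] at hv
    obtain ⟨O, hO, hv⟩ := hv
    exact mem_filter.2 ⟨mem_univ _, (mem_filter.1 hv).2⟩
  calc (covers G).card < Z.card := h1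
    _ ≤ _ := h2
    _ ≤ _ := h3
    _ ≤ _ := Nat.pow_le_pow_right (by norm_num) h4

end Pool.Agent.U376.ECov
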