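import Pool.Agent.U376.ECov.TB
import Pool.Agent.U376.ECov.Count

set_option linter.unusedSectionVars false
set_option linter.unusedVariables false

namespace Pool.Agent.U376.ECov

open Finset

variable {V : Type*} [Fintype V] [DecidableEq V]

/-- A family of pairwise disjoint odd sets which is a partition of the complement of `A` into sets
closed under adjacency outside `A`. -/
structure IsFam (G : SimpleGraph V) (A : Finset V) (F : Finset (Finset V)) : Prop where
  odd : ∀ O ∈ F, Odd O.card
  disj : ∀ O ∈ F, ∀ O' ∈ F, O ≠ O' → Disjoint O O'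
  disjA : ∀ O ∈ F, Disjoint O A
  closed : ∀ O ∈ F, ∀ x ∈ O, ∀ y, G.Adj x y → y ∈ O ∨ y ∈ A
  cov : ∀ x, x ∉ A → ∃ O ∈ F, x ∈ O

lemma IsFam.sum_card {G : SimpleGraph V} {A : Finset V} {F : Finset (Finset V)}
    (h : IsFam G A F) : A.card + ∑ O ∈ F, O.card = Fintype.card V := by
  have h1 : (F.biUnion id).card = ∑ O ∈ F, O.card := by
    apply card_biUnion
    intro O hO O' hO' hne
    exact h.disj O hO O' hO' hne
  have h2 : F.biUnion id = univ \ A := by
    ext x
    simp only [mem_biUnion, id, mem_sdiff, mem_univ, true_and]
    constructor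
    · rintro ⟨O, hO, hx⟩ hxA
      exact disjoint_left.1 (h.disjA O hO) hx hxA
    · intro hx
      exact h.cov x hx
  rw [← h1, h2, card_sdiff_of_subset (subset_univ _), card_univ]
  have := card_le_univ A
  omega

lemma IsFam.parity {G : SimpleGraph V} {A : Finset V} {F : Finset (Finset V)}
    (h : IsFam G A F) (l : ℕ) (heven : Even (Fintype.card V + l)) (hc : A.card + l < F.card) :
    A.card + l + 2 ≤ F.card := by
  by_contra hcon
  have h1 : F.card = A.card + l + 1 := by omega
  have h2 : Even (∑ O ∈ F, O.card) ↔ Even F.card := by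
    rw [even_sum_iff_even_card_odd, filter_true_of_mem h.odd]
  have h3 := h.sum_card
  rw [Nat.even_iff] at heven
  rw [Nat.even_iff, Nat.even_iff, h1] at h2
  omega

lemma barrier (G : SimpleGraph V) (l : ℕ) (heven : Even (Fintype.card V + l))
    (hno : ¬ ∃ (U : Finset V) (m : V → V), U.card ≤ l ∧
      ∀ x, x ∉ U → m x ∉ U ∧ m (m x) = x ∧ G.Adj x (m x)) :
    ∃ (A : Finset V) (F : Finset (Finset V)), IsFam G A F ∧ A.card + l + 2 ≤ F.card := by
  classical
  by_contra hcon
  apply hno
  obtain ⟨U, m, _, hU, hm⟩ := tutte_berge G univ l (by rwa [card_univ]) (by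
    intro A F hA hodd hdisj hsub hclos
    by_contra hlt
    push Not at hlt
    apply hcon
    have hdisjA : ∀ O ∈ F, Disjoint O A := by
      intro O hO
      rw [disjoint_left]
      intro x hx
      exact (mem_sdiff.1 (hsub O hO hx)).2
    have hclos' : ∀ O ∈ F, ∀ x ∈ O, ∀ y, G.Adj x y → y ∈ O ∨ y ∈ A :=
      fun O hO x hx y hxy => hclos O hO x hx y (mem_univ _) hxy
    set R := univ.filter (fun x => x ∉ A ∧ ∀ O ∈ F, x ∉ O) with hR
    have hRm : ∀ x, x ∈ R ↔ x ∉ A ∧ ∀ O ∈ F, x ∉ O := by
      intro x; simp [hR]
    have hRA : Disjoint R A := by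
      rw [disjoint_left]; intro x hx; exact ((hRm x).1 hx).1
    have hRO : ∀ O ∈ F, Disjoint R O := by
      intro O hO; rw [disjoint_left]; intro x hx; exact ((hRm x).1 hx).2 O hO
    have hRc : ∀ x ∈ R, ∀ y, G.Adj x y → y ∈ R ∨ y ∈ A := by
      intro x hx y hxy
      by_cases hyA : y ∈ A
      · exact Or.inr hyA
      · left
        rw [hRm]
        refine ⟨hyA, fun O hO hyO => ?_⟩
        rcases hclos' O hO y hyO x hxy.symm with h | h
        · exact ((hRm x).1 hx).2 O hO h
        · exact ((hRm x).1 hx).1 h
    rcases Nat.even_or_odd R.card with hRe | hRo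
    · -- even: merge into a member
      obtain ⟨O0, hO0⟩ := card_pos.1 (by omega : 0 < F.card)
      have hne0 : O0.Nonempty := by rw [← card_pos]; exact (hodd O0 hO0).pos
      have hnotin : O0 ∪ R ∉ F.erase O0 := by
        intro h
        rw [mem_erase] at h
        obtain ⟨x, hx⟩ := hne0
        exact disjoint_left.1 (hdisj _ h.2 O0 hO0 h.1) (mem_union_left _ hx) hx
      have hfam : IsFam G A (insert (O0 ∪ R) (F.erase O0)) := by
        refine ⟨?_, ?_, ?_, ?_, ?_⟩
        · intro O hO
          rw [mem_insert] at hO
          rcases hO with rfl | hO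
          · rw [card_union_of_disjoint (hRO O0 hO0).symm]
            exact (hodd O0 hO0).add_even hRe
          · exact hodd O (mem_of_mem_erase hO)
        · intro O hO O' hO' hne
          rw [mem_insert] at hO hO'
          rcases hO with rfl | hO <;> rcases hO' with rfl | hO'
          · exact absurd rfl hne
          · rw [mem_erase] at hO'
            rw [disjoint_union_left]
            exact ⟨hdisj _ hO0 _ hO'.2 (Ne.symm hO'.1), hRO _ hO'.2⟩
          · rw [mem_erase] at hO
            rw [disjoint_union_right]
            exact ⟨hdisj _ hO.2 _ hO0 hO.1, (hRO _ hO.2).symm⟩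
          · exact hdisj _ (mem_of_mem_erase hO) _ (mem_of_mem_erase hO') hne
        · intro O hO
          rw [mem_insert] at hO
          rcases hO with rfl | hO
          · rw [disjoint_union_left]; exact ⟨hdisjA _ hO0, hRA⟩
          · exact hdisjA _ (mem_of_mem_erase hO)
        · intro O hO x hx y hxy
          rw [mem_insert] at hO
          rcases hO with rfl | hO
          · rw [mem_union] at hx ⊢
            rcases hx with hx | hx
            · rcases hclos' _ hO0 x hx y hxy with h | h
              · exact Or.inl (Or.inl h)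
              · exact Or.inr h
            · rcases hRc x hx y hxy with h | h
              · exact Or.inl (Or.inr h)
              · exact Or.inr h
          · exact hclos' _ (mem_of_mem_erase hO) x hx y hxy
        · intro x hx
          by_cases h : ∃ O ∈ F, x ∈ O
          · obtain ⟨O, hO, hxO⟩ := h
            by_cases hOO : O = O0
            · exact ⟨O0 ∪ R, mem_insert_self _ _, mem_union_left _ (hOO ▸ hxO)⟩
            · exact ⟨O, mem_insert_of_mem (mem_erase.2 ⟨hOO, hO⟩), hxO⟩
          · push Not at h
            exact ⟨O0 ∪ R, mem_insert_self _ _, mem_union_right _ ((hRm x).2 ⟨hx, h⟩)⟩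
      refine ⟨A, _, hfam, hfam.parity l heven ?_⟩
      rw [card_insert_of_notMem hnotin, card_erase_of_mem hO0]
      omega
    · have hneR : R.Nonempty := by rw [← card_pos]; exact hRo.pos
      have hnotin : R ∉ F := by
        intro h
        obtain ⟨x, hx⟩ := hneR
        exact ((hRm x).1 hx).2 R h hx
      have hfam : IsFam G A (insert R F) := by
        refine ⟨?_, ?_, ?_, ?_, ?_⟩
        · intro O hO
          rw [mem_insert] at hO
          rcases hO with rfl | hO
          · exact hRo
          · exact hodd O hO
        · intro O hO O' hO' hne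
          rw [mem_insert] at hO hO'
          rcases hO with rfl | hO <;> rcases hO' with rfl | hO'
          · exact absurd rfl hne
          · exact hRO _ hO'
          · exact (hRO _ hO).symm
          · exact hdisj _ hO _ hO' hne
        · intro O hO
          rw [mem_insert] at hO
          rcases hO with rfl | hO
          · exact hRA
          · exact hdisjA _ hO
        · intro O hO x hx y hxy
          rw [mem_insert] at hO
          rcases hO with rfl | hO
          · exact hRc x hx y hxy
          · exact hclos' _ hO x hx y hxy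
        · intro x hx
          by_cases h : ∃ O ∈ F, x ∈ O
          · obtain ⟨O, hO, hxO⟩ := h
            exact ⟨O, mem_insert_of_mem hO, hxO⟩
          · push Not at h
            exact ⟨R, mem_insert_self _ _, (hRm x).2 ⟨hx, h⟩⟩
      refine ⟨A, _, hfam, hfam.parity l heven ?_⟩
      rw [card_insert_of_notMem hnotin]
      omega)
  refine ⟨U, m, hU, fun x hx => ?_⟩
  have h := hm x (mem_sdiff.2 ⟨mem_univ _, hx⟩)
  exact ⟨(mem_sdiff.1 h.1).2, h.2⟩

/-- A matching missing the vertices of `U` extends to a small edge cover. -/
lemma exists_cover (G : SimpleGraph V) [DecidableRel G.Adj] (hd : ∀ v, 2 ≤ G.degree v)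
    (U : Finset V) (m : V → V)
    (hm : ∀ x, x ∉ U → m x ∉ U ∧ m (m x) = x ∧ G.Adj x (m x)) :
    ∃ S ∈ covers G, 2 * S.card ≤ Fintype.card V + U.card := by
  classical
  have hp : ∀ v, ∃ w, G.Adj v w := fun v => (exists_other G (hd v) v).imp fun w h => h.1
  choose p hp using hp
  refine ⟨((univ \ U).image (fun x => s(x, m x))) ∪ U.image (fun x => s(x, p x)), ?_, ?_⟩
  · rw [mem_covers]
    constructor
    · intro e he
      rw [mem_union, mem_image, mem_image] at he
      rw [SimpleGraph.mem_edgeFinset]
      rcases he with ⟨x, hx, rfl⟩ | ⟨x, hx, rfl⟩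
      · exact (hm x (mem_sdiff.1 hx).2).2.2
      · exact hp x
    · intro v
      by_cases hv : v ∈ U
      · exact ⟨s(v, p v), mem_union_right _ (mem_image_of_mem _ hv), by simp⟩
      · exact ⟨s(v, m v), mem_union_left _ (mem_image.2 ⟨v, mem_sdiff.2 ⟨mem_univ _, hv⟩, rfl⟩),
          by simp⟩
  · have h1 : 2 * ((univ \ U).image (fun x => s(x, m x))).card ≤ (univ \ U).card := by
      apply mul_card_image_le_card
      intro e he
      obtain ⟨x, hx, rfl⟩ := mem_image.1 he
      have hxU := (mem_sdiff.1 hx).2
      obtain ⟨h1, h2, h3⟩ := hm x hxU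
      have : ({x, m x} : Finset V) ⊆ (univ \ U).filter (fun a => s(a, m a) = s(x, m x)) := by
        intro y hy
        simp only [mem_insert, mem_singleton] at hy
        rcases hy with rfl | rfl
        · exact mem_filter.2 ⟨hx, rfl⟩
        · refine mem_filter.2 ⟨mem_sdiff.2 ⟨mem_univ _, h1⟩, ?_⟩
          rw [h2, Sym2.eq_swap]
      have := card_le_card this
      rwa [card_pair h3.ne] at this
    have h2 : (U.image (fun x => s(x, p x))).card ≤ U.card := card_image_le
    have h3 := card_union_le ((univ \ U).image (fun x => s(x, m x))) (U.image (fun x => s(x, p x)))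
    have h4 : (univ \ U).card = Fintype.card V - U.card := by
      rw [card_sdiff_of_subset (subset_univ _), card_univ]
    have h5 := card_le_univ U
    omega

end Pool.Agent.U376.ECov
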