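import Mathlib

set_option linter.unusedSectionVars false
set_option linter.unusedVariables false

namespace Pool.Agent.U376.ECov

open Finset Polynomial

variable {V : Type*} [Fintype V] [DecidableEq V]

/-- The edge covering sets of `G`: the sets `S` of edges of `G` such that every vertex is an
endpoint of some edge in `S`. -/
def covers (G : SimpleGraph V) [DecidableRel G.Adj] : Finset (Finset (Sym2 V)) :=
  G.edgeFinset.powerset.filter (fun S => ∀ v : V, ∃ e ∈ S, v ∈ e)

/-- `numCovers G i` is `e(G,i)`, the number of edge covering sets of `G` with exactly `i` edges. -/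
def numCovers (G : SimpleGraph V) [DecidableRel G.Adj] (i : ℕ) : ℕ :=
  ((covers G).filter (fun S => S.card = i)).card

/-- The edge cover polynomial `E(G,x) = ∑_{i=0}^{|E|} e(G,i) x^i`, with complex coefficients. -/
noncomputable def edgeCoverPoly (G : SimpleGraph V) [DecidableRel G.Adj] : ℂ[X] :=
  ∑ i ∈ range (G.edgeFinset.card + 1), C (numCovers G i : ℂ) * X ^ i

/-- the edges meeting `O` -/
def inc (G : SimpleGraph V) [DecidableRel G.Adj] (O : Finset V) : Finset (Sym2 V) :=
  G.edgeFinset.filter (fun e => ∃ v ∈ O, v ∈ e)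

/-- the edges at `v` -/
def star (G : SimpleGraph V) [DecidableRel G.Adj] (v : V) : Finset (Sym2 V) :=
  G.edgeFinset.filter (fun e => v ∈ e)

variable (G : SimpleGraph V) [DecidableRel G.Adj]

lemma mem_inc {O : Finset V} {e : Sym2 V} :
    e ∈ inc G O ↔ e ∈ G.edgeFinset ∧ ∃ v ∈ O, v ∈ e := by
  simp [inc]

lemma mem_star {v : V} {e : Sym2 V} : e ∈ star G v ↔ e ∈ G.edgeFinset ∧ v ∈ e := by
  simp [star]

lemma star_subset (v : V) : star G v ⊆ G.edgeFinset := filter_subset _ _

lemma card_star (v : V) : (star G v).card = G.degree v := by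
  rw [← G.card_incidenceFinset_eq_degree, G.incidenceFinset_eq_filter]; rfl

lemma mem_covers {S : Finset (Sym2 V)} :
    S ∈ covers G ↔ S ⊆ G.edgeFinset ∧ ∀ v : V, ∃ e ∈ S, v ∈ e := by
  simp [covers]

lemma numCovers_eq_zero_of_lt {i : ℕ} (h : G.edgeFinset.card < i) : numCovers G i = 0 := by
  unfold numCovers
  rw [card_eq_zero, filter_eq_empty_iff]
  intro S hS hi
  have := card_le_card ((mem_covers G).1 hS).1
  omega

lemma coeff_poly (i : ℕ) : (edgeCoverPoly G).coeff i = numCovers G i := by
  unfold edgeCoverPoly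
  rw [finsetSum_coeff]
  simp only [coeff_C_mul, coeff_X_pow]
  by_cases h : i ∈ range (G.edgeFinset.card + 1)
  · rw [sum_eq_single i]
    · simp
    · intro j _ hj
      simp [Ne.symm hj]
    · intro h'; exact absurd h h'
  · rw [numCovers_eq_zero_of_lt G (by simpa [Nat.lt_succ_iff] using h), sum_eq_zero]
    · simp
    · intro j hj
      have : i ≠ j := by rintro rfl; exact h hj
      simp [this]

lemma eval_poly (x : ℂ) : (edgeCoverPoly G).eval x = ∑ S ∈ covers G, x ^ S.card := by
  unfold edgeCoverPoly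
  rw [eval_finsetSum]
  simp only [eval_mul, eval_C, eval_pow, eval_X]
  rw [← sum_fiberwise_of_maps_to (s := covers G) (t := range (G.edgeFinset.card + 1))
    (g := fun S => S.card)]
  · refine sum_congr rfl fun i _ => ?_
    unfold numCovers
    rw [sum_congr rfl (g := fun _ => x ^ i), sum_const, nsmul_eq_mul]
    intro S hS
    rw [(mem_filter.1 hS).2]
  · intro S hS
    rw [mem_range, Nat.lt_succ_iff]
    exact card_le_card ((mem_covers G).1 hS).1

lemma one_lt_inter {e f : Sym2 V} {v w : V} (hvw : v ≠ w) (h1 : v ∈ e) (h2 : w ∈ e) (h3 : v ∈ f)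
    (h4 : w ∈ f) : e = f := by
  rw [(Sym2.mem_and_mem_iff hvw).1 ⟨h1, h2⟩, (Sym2.mem_and_mem_iff hvw).1 ⟨h3, h4⟩]

lemma numCovers_top (hd : ∀ v, 2 ≤ G.degree v) : numCovers G G.edgeFinset.card = 1 := by
  unfold numCovers
  rw [card_eq_one]
  refine ⟨G.edgeFinset, ?_⟩
  ext S
  simp only [mem_filter, mem_covers, mem_singleton]
  constructor
  · rintro ⟨⟨h1, _⟩, h2⟩
    exact eq_of_subset_of_card_le h1 h2.ge
  · rintro rfl
    refine ⟨⟨Subset.rfl, fun v => ?_⟩, rfl⟩
    have : 0 < (star G v).card := by rw [card_star]; have := hd v; omega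
    obtain ⟨e, he⟩ := card_pos.1 this
    rw [mem_star] at he
    exact ⟨e, he.1, he.2⟩

/-- a subset of the edges is a covering set iff its complement contains no star -/
lemma mem_covers_iff {R : Finset (Sym2 V)} (hR : R ⊆ G.edgeFinset) :
    G.edgeFinset \ R ∈ covers G ↔ ∀ v, ¬ star G v ⊆ R := by
  rw [mem_covers]
  constructor
  · rintro ⟨_, h⟩ v hv
    obtain ⟨e, he, hve⟩ := h v
    rw [mem_sdiff] at he
    exact he.2 (hv ((mem_star G).2 ⟨he.1, hve⟩))
  · intro h
    refine ⟨sdiff_subset, fun v => ?_⟩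
    have := h v
    rw [not_subset] at this
    obtain ⟨e, he, heR⟩ := this
    rw [mem_star] at he
    exact ⟨e, mem_sdiff.2 ⟨he.1, heR⟩, he.2⟩

lemma numCovers_sub {k : ℕ} (hk : k ≤ G.edgeFinset.card) :
    numCovers G (G.edgeFinset.card - k) =
      ((G.edgeFinset.powersetCard k).filter (fun R => ∀ v, ¬ star G v ⊆ R)).card := by
  unfold numCovers
  apply card_bij' (fun S _ => G.edgeFinset \ S) (fun R _ => G.edgeFinset \ R)
  · intro S hS
    simp only [mem_filter, mem_powersetCard] at hS ⊢
    have hSs := ((mem_covers G).1 hS.1).1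
    refine ⟨⟨sdiff_subset, ?_⟩, ?_⟩
    · rw [card_sdiff_of_subset hSs]; omega
    · rw [← mem_covers_iff G sdiff_subset, Finset.sdiff_sdiff_eq_self hSs]
      exact hS.1
  · intro R hR
    simp only [mem_filter, mem_powersetCard] at hR ⊢
    refine ⟨(mem_covers_iff G hR.1.1).2 hR.2, ?_⟩
    rw [card_sdiff_of_subset hR.1.1, hR.1.2]
  · intro S hS
    exact Finset.sdiff_sdiff_eq_self ((mem_covers G).1 (mem_filter.1 hS).1).1
  · intro R hR
    exact Finset.sdiff_sdiff_eq_self (mem_powersetCard.1 (mem_filter.1 hR).1).1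

lemma numCovers_sub_one (hd : ∀ v, 2 ≤ G.degree v) (hm : 1 ≤ G.edgeFinset.card) :
    numCovers G (G.edgeFinset.card - 1) = G.edgeFinset.card := by
  rw [numCovers_sub G hm, filter_true_of_mem, card_powersetCard, Nat.choose_one_right]
  intro R hR v hv
  have h1 := card_le_card hv
  rw [card_star, (mem_powersetCard.1 hR).2] at h1
  have := hd v
  omega

lemma numCovers_sub_two (hd : ∀ v, 2 ≤ G.degree v) (hm : 2 ≤ G.edgeFinset.card) :
    numCovers G (G.edgeFinset.card - 2) + (univ.filter (fun v => G.degree v = 2)).card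
      = G.edgeFinset.card.choose 2 := by
  rw [numCovers_sub G hm, ← card_powersetCard, ← card_filter_add_card_filter_not
    (s := powersetCard 2 G.edgeFinset) (fun R => ∀ v, ¬ star G v ⊆ R)]
  congr 1
  apply card_bij (fun v _ => star G v)
  · intro v hv
    rw [mem_filter] at hv
    rw [mem_filter, mem_powersetCard, card_star]
    refine ⟨⟨star_subset G v, hv.2⟩, fun h => h v Subset.rfl⟩
  · intro v hv w hw hvw
    by_contra hne
    rw [mem_filter] at hv
    have h2 : 1 < (star G v).card := by rw [card_star, hv.2]; omega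
    obtain ⟨e, he, f, hf, hef⟩ := one_lt_card.1 h2
    have he' := he
    have hf' := hf
    rw [show star G v = star G w from hvw] at he' hf'
    rw [mem_star] at he hf he' hf'
    exact hef (one_lt_inter hne he.2 he'.2 hf.2 hf'.2)
  · intro R hR
    rw [mem_filter, mem_powersetCard] at hR
    push Not at hR
    obtain ⟨⟨hR1, hR2⟩, v, hv⟩ := hR
    have h1 := card_le_card hv
    rw [card_star, hR2] at h1
    have h3 := hd v
    refine ⟨v, mem_filter.2 ⟨mem_univ _, le_antisymm h1 h3⟩, ?_⟩
    exact eq_of_subset_of_card_le hv (by rw [card_star, hR2]; exact h3)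

end Pool.Agent.U376.ECov
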