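import Mathlib

set_option linter.unusedSectionVars false
set_option linter.unusedVariables false

namespace Pool.Agent.U376.ECov

open Finset Polynomial

/-- A monic complex polynomial with natural coefficients, at most two distinct roots, vanishing at
`0`, with second coefficient equal to its degree `m > 0`, is `X^a (X + c)^b` with `c` natural. -/
lemma poly_form (P : ℂ[X]) (m : ℕ) (hP : P.Monic) (hdeg : P.natDegree = m) (h0 : P.eval 0 = 0)
    (hm : 0 < m) (hm1 : P.coeff (m - 1) = m)
    (hroots : {z : ℂ | P.eval z = 0}.ncard ≤ 2) (hnat : ∀ i, ∃ k : ℕ, P.coeff i = k) :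
    ∃ a b c : ℕ, 1 ≤ a ∧ 1 ≤ b ∧ a + b = m ∧ b * c = m ∧ P = X ^ a * (X + C (c : ℂ)) ^ b := by
  classical
  have hP0 : P ≠ 0 := hP.ne_zero
  have hset : {z : ℂ | P.eval z = 0} = (P.roots.toFinset : Set ℂ) := by
    ext z
    simp [hP0]
  rw [hset, Set.ncard_coe_finset] at hroots
  have h0r : (0 : ℂ) ∈ P.roots.toFinset := by
    simp [hP0, h0]
  -- at most one nonzero root
  obtain ⟨r, hr⟩ : ∃ r : ℂ, ∀ z ∈ P.roots, z ≠ 0 → z = r := by
    by_cases h : ∃ z ∈ P.roots, z ≠ 0
    · obtain ⟨r, hr, hr0⟩ := h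
      refine ⟨r, fun z hz hz0 => ?_⟩
      by_contra hne
      have hsub : ({0, r, z} : Finset ℂ) ⊆ P.roots.toFinset := by
        intro w hw
        simp only [mem_insert, mem_singleton] at hw
        rcases hw with rfl | rfl | rfl
        · exact h0r
        · exact Multiset.mem_toFinset.2 hr
        · exact Multiset.mem_toFinset.2 hz
      have h3 : ({0, r, z} : Finset ℂ).card = 3 := by
        rw [card_eq_three]
        exact ⟨0, r, z, hr0.symm, hz0.symm, fun h => hne h.symm, rfl⟩
      have := card_le_card hsub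
      omega
    · push Not at h
      exact ⟨0, fun z hz hz0 => absurd (h z hz) hz0⟩
  have hprod := (IsAlgClosed.splits P).eq_prod_roots_of_monic hP
  set a := P.roots.count 0 with ha
  set b := (P.roots.filter (fun z => ¬ z = 0)).card with hb
  have hsplit : P.roots = Multiset.replicate a 0 + Multiset.replicate b r := by
    rw [← Multiset.filter_add_not (fun z => z = 0) P.roots, Multiset.filter_eq']
    congr 1
    rw [Multiset.eq_replicate]
    refine ⟨rfl, fun z hz => ?_⟩
    rw [Multiset.mem_filter] at hz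
    exact hr z hz.1 hz.2
  have hform : P = X ^ a * (X + C (-r)) ^ b := by
    rw [hprod, hsplit]
    simp [Multiset.map_add, Multiset.map_replicate, Multiset.prod_add, Multiset.prod_replicate,
      sub_eq_add_neg]
  have ha1 : 1 ≤ a := by
    rw [ha, Nat.succ_le_iff, Multiset.count_pos]
    exact Multiset.mem_toFinset.1 h0r
  have hab : a + b = m := by
    rw [← hdeg, hform]
    rw [natDegree_mul (pow_ne_zero _ X_ne_zero) (pow_ne_zero _ (X_add_C_ne_zero _)), natDegree_pow,
      natDegree_pow, natDegree_X, natDegree_X_add_C, mul_one, mul_one]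
  have hb1 : 1 ≤ b := by
    by_contra hb0
    have hb0' : b = 0 := by omega
    rw [hform, hb0', pow_zero, mul_one, coeff_X_pow, if_neg (by omega)] at hm1
    have : (m : ℂ) ≠ 0 := by exact_mod_cast hm.ne'
    exact this hm1.symm
  have hcoef : ∀ j, P.coeff (j + a) = (-r) ^ (b - j) * (b.choose j : ℂ) := by
    intro j
    rw [hform, coeff_X_pow_mul, coeff_X_add_C_pow]
  have hrm : (-r) * (b : ℂ) = m := by
    have h1 := hcoef (b - 1)
    rw [show b - 1 + a = m - 1 by omega, hm1, show b - (b - 1) = 1 by omega, pow_one,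
      Nat.choose_symm hb1, Nat.choose_one_right] at h1
    exact h1.symm
  obtain ⟨k, hk⟩ := hnat a
  have hck : (-r) ^ b = (k : ℂ) := by
    have h1 := hcoef 0
    rw [zero_add, hk, Nat.sub_zero, Nat.choose_zero_right, Nat.cast_one, mul_one] at h1
    exact h1.symm
  have hpow : (k : ℂ) * (b : ℂ) ^ b = (m : ℂ) ^ b := by
    rw [← hrm, mul_pow, hck]
  have hpow' : k * b ^ b = m ^ b := by exact_mod_cast hpow
  have hdvd : b ∣ m := by
    rw [← Nat.pow_dvd_pow_iff (n := b) (by omega)]
    exact ⟨k, by rw [← hpow', mul_comm]⟩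
  obtain ⟨c, hc⟩ := hdvd
  have hbC : (b : ℂ) ≠ 0 := by exact_mod_cast (by omega : b ≠ 0)
  have hcr : -r = (c : ℂ) := by
    have : (-r) * (b : ℂ) = c * b := by rw [hrm, hc]; push_cast; ring
    exact mul_right_cancel₀ hbC this
  refine ⟨a, b, c, ha1, hb1, hab, hc.symm, ?_⟩
  rw [← hcr]; exact hform

end Pool.Agent.U376.ECov
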