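import Pool.Agent.U376.ECov.Count

set_option linter.unusedSectionVars false
set_option linter.unusedVariables false

namespace Pool.Agent.U376.ECov

open Finset

variable {V : Type*} [Fintype V] [DecidableEq V]
variable (G : SimpleGraph V) [DecidableRel G.Adj]

/-- the edges inside `t` -/
def ins (t : Finset V) : Finset (Sym2 V) := G.edgeFinset.filter (fun e => ∀ v ∈ e, v ∈ t)

lemma sign_formula :
    ∑ S ∈ covers G, (-1 : ℤ) ^ S.card =
      ∑ t ∈ (univ : Finset V).powerset, (-1 : ℤ) ^ (univ \ t).card * (if ins G t = ∅ then 1 else 0)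
      := by
  classical
  have h1 : ∀ S : Finset (Sym2 V), (if ∀ v : V, ∃ e ∈ S, v ∈ e then (1 : ℤ) else 0)
      = ∏ v : V, (1 + (if ∃ e ∈ S, v ∈ e then (0 : ℤ) else -1)) := by
    intro S
    by_cases h : ∀ v : V, ∃ e ∈ S, v ∈ e
    · rw [if_pos h]
      symm
      apply prod_eq_one
      intro v _
      rw [if_pos (h v)]; rfl
    · rw [if_neg h]
      push Not at h
      obtain ⟨v, hv⟩ := h
      symm
      apply prod_eq_zero (mem_univ v)
      rw [if_neg]
      · rfl
      · rintro ⟨e, he, hve⟩; exact hv e he hve
  unfold covers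
  rw [sum_filter]
  have h2 : ∀ S ∈ G.edgeFinset.powerset,
      (if ∀ v : V, ∃ e ∈ S, v ∈ e then (-1 : ℤ) ^ S.card else 0) =
      ∑ t ∈ (univ : Finset V).powerset, (-1 : ℤ) ^ (univ \ t).card *
        (if S ⊆ ins G t then (-1 : ℤ) ^ S.card else 0) := by
    intro S hS
    rw [mem_powerset] at hS
    have : (if ∀ v : V, ∃ e ∈ S, v ∈ e then (-1 : ℤ) ^ S.card else 0)
        = (-1 : ℤ) ^ S.card * (if ∀ v : V, ∃ e ∈ S, v ∈ e then (1 : ℤ) else 0) := by
      split_ifs <;> simp
    rw [this, h1, prod_add, mul_sum]
    refine sum_congr rfl fun t ht => ?_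
    rw [prod_const_one, one_mul]
    by_cases hst : S ⊆ ins G t
    · rw [if_pos hst, prod_congr rfl (g := fun _ => (-1 : ℤ)), prod_const, mul_comm]
      intro v hv
      rw [if_neg]
      rintro ⟨e, he, hve⟩
      have := hst he
      rw [ins, mem_filter] at this
      exact (mem_sdiff.1 hv).2 (this.2 v hve)
    · rw [if_neg hst, mul_zero]
      rw [not_subset] at hst
      obtain ⟨e, he, hne⟩ := hst
      rw [ins, mem_filter] at hne
      push Not at hne
      obtain ⟨v, hve, hvt⟩ := hne (hS he)
      rw [prod_eq_zero (i := v)]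
      · ring
      · exact mem_sdiff.2 ⟨mem_univ _, hvt⟩
      · rw [if_pos ⟨e, he, hve⟩]
  rw [sum_congr rfl h2, sum_comm]
  refine sum_congr rfl fun t _ => ?_
  rw [← mul_sum]
  congr 1
  rw [← sum_filter]
  have : G.edgeFinset.powerset.filter (fun S => S ⊆ ins G t) = (ins G t).powerset := by
    ext S
    rw [mem_filter, mem_powerset, mem_powerset]
    exact ⟨fun h => h.2, fun h => ⟨h.trans (filter_subset _ _), h⟩⟩
  rw [this, sum_powerset_neg_one_pow_card]

/-- The exceptional case: five vertices, six edges. -/
lemma sign_special (h5 : Fintype.card V = 5) (h6 : G.edgeFinset.card = 6) :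
    0 ≤ ∑ S ∈ covers G, (-1 : ℤ) ^ S.card := by
  classical
  rw [sign_formula, sum_powerset]
  have hcu : (univ : Finset V).card = 5 := by rw [card_univ, h5]
  rw [hcu]
  have hj : ∀ j, ∑ t ∈ powersetCard j (univ : Finset V),
      (-1 : ℤ) ^ (univ \ t).card * (if ins G t = ∅ then 1 else 0)
      = (-1 : ℤ) ^ (5 - j) *
        (((powersetCard j (univ : Finset V)).filter (fun t => ins G t = ∅)).card : ℤ) := by
    intro j
    rw [card_filter]
    push_cast
    rw [mul_sum]
    refine sum_congr rfl fun t ht => ?_
    rw [card_sdiff_of_subset (subset_univ _), hcu, (mem_powersetCard.1 ht).2]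
  simp only [sum_range_succ, range_zero, sum_empty, zero_add, hj]
  -- sizes
  have i0 : ((powersetCard 0 (univ : Finset V)).filter (fun t => ins G t = ∅)).card ≤ 1 := by
    refine (card_filter_le _ _).trans ?_
    rw [powersetCard_zero, card_singleton]
  have i1 : ((powersetCard 1 (univ : Finset V)).filter (fun t => ins G t = ∅)).card = 5 := by
    rw [filter_true_of_mem, card_powersetCard, hcu]; · rfl
    intro t ht
    obtain ⟨v, rfl⟩ := card_eq_one.1 (mem_powersetCard.1 ht).2
    rw [ins, filter_eq_empty_iff]
    intro e he h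
    induction e using Sym2.ind with
    | _ x y =>
      rw [SimpleGraph.mem_edgeFinset] at he
      have hx := mem_singleton.1 (h x (by simp))
      have hy := mem_singleton.1 (h y (by simp))
      rw [hx, hy] at he
      exact G.irrefl he
  have i2 : ((powersetCard 2 (univ : Finset V)).filter (fun t => ins G t = ∅)).card ≤ 4 := by
    have hs := card_filter_add_card_filter_not
      (s := powersetCard 2 (univ : Finset V)) (fun t => ins G t = ∅)
    rw [card_powersetCard, hcu] at hs
    have hge : 6 ≤ ((powersetCard 2 (univ : Finset V)).filter (fun t => ¬ ins G t = ∅)).card := by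
      rw [← h6]
      apply card_le_card_of_injOn (fun e => e.toFinset)
      · intro e he
        rw [mem_coe] at he
        rw [mem_coe, mem_filter, mem_powersetCard]
        have hnd : ¬ e.IsDiag := by
          rw [SimpleGraph.mem_edgeFinset] at he
          exact G.not_isDiag_of_mem_edgeSet he
        refine ⟨⟨subset_univ _, ?_⟩, ?_⟩
        · rw [Sym2.card_toFinset, if_neg hnd]
        · rw [← Ne, ← nonempty_iff_ne_empty]
          refine ⟨e, ?_⟩
          rw [ins, mem_filter]
          exact ⟨he, fun v hv => Sym2.mem_toFinset.2 hv⟩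
      · intro e he f hf hef
        apply Sym2.ext
        intro x
        rw [← Sym2.mem_toFinset, ← Sym2.mem_toFinset]
        rw [show e.toFinset = f.toFinset from hef]
    have : Nat.choose 5 2 = 10 := rfl
    omega
  have i4 : ((powersetCard 4 (univ : Finset V)).filter (fun t => ins G t = ∅)).card = 0 := by
    rw [card_eq_zero, filter_eq_empty_iff]
    intro t ht hins
    have hc : (univ \ t).card = 1 := by
      rw [card_sdiff_of_subset (subset_univ _), hcu, (mem_powersetCard.1 ht).2]
    obtain ⟨w, hw⟩ := card_eq_one.1 hc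
    have hsub : G.edgeFinset ⊆ star G w := by
      intro e he
      rw [mem_star]
      refine ⟨he, ?_⟩
      by_contra hwe
      have : e ∈ ins G t := by
        rw [ins, mem_filter]
        refine ⟨he, fun v hv => ?_⟩
        by_contra hvt
        have : v ∈ univ \ t := mem_sdiff.2 ⟨mem_univ _, hvt⟩
        rw [hw, mem_singleton] at this
        exact hwe (this ▸ hv)
      rw [hins] at this
      simp at this
    have h1 := card_le_card hsub
    rw [card_star, h6] at h1
    have h2 := G.degree_lt_card_verts w
    omega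
  rw [i1, i4]
  have e0 : (((powersetCard 0 (univ : Finset V)).filter (fun t => ins G t = ∅)).card : ℤ) ≤ 1 := by
    exact_mod_cast i0
  have e2 : (((powersetCard 2 (univ : Finset V)).filter (fun t => ins G t = ∅)).card : ℤ) ≤ 4 := by
    exact_mod_cast i2
  have e3 : 0 ≤ (((powersetCard 3 (univ : Finset V)).filter (fun t => ins G t = ∅)).card : ℤ) :=
    Int.natCast_nonneg _
  have e5 : 0 ≤ (((powersetCard 5 (univ : Finset V)).filter (fun t => ins G t = ∅)).card : ℤ) :=
    Int.natCast_nonneg _
  generalize (((powersetCard 0 (univ : Finset V)).filter (fun t => ins G t = ∅)).card : ℤ) = a0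
    at e0 ⊢
  generalize (((powersetCard 2 (univ : Finset V)).filter (fun t => ins G t = ∅)).card : ℤ) = a2
    at e2 ⊢
  generalize (((powersetCard 3 (univ : Finset V)).filter (fun t => ins G t = ∅)).card : ℤ) = a3
    at e3 ⊢
  generalize (((powersetCard 5 (univ : Finset V)).filter (fun t => ins G t = ∅)).card : ℤ) = a5
    at e5 ⊢
  norm_num
  linarith

end Pool.Agent.U376.ECov
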