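import Pool.Agent.U376.ECov.Barrier
import Pool.Agent.U376.ECov.Special
import Pool.Agent.U376.ECov.Poly

set_option linter.unusedSectionVars false
set_option linter.unusedVariables false

namespace Pool.Agent.U376.ECov

open Finset Polynomial

variable {V : Type*} [Fintype V] [DecidableEq V]
variable (G : SimpleGraph V) [DecidableRel G.Adj]

lemma closed_eq_univ (hc : G.Connected) (O : Finset V) (hO : O.Nonempty)
    (hcl : ∀ x ∈ O, ∀ y, G.Adj x y → y ∈ O) : O = univ := by
  classical
  rw [eq_univ_iff_forall]
  obtain ⟨x, hx⟩ := hO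
  intro y
  obtain ⟨p⟩ := hc.preconnected x y
  induction p with
  | nil => exact hx
  | cons h q ih => exact ih (hcl _ hx _ h)

theorem three_le (hc : G.Connected) (hmin : G.minDegree = 2)
    (hK : ¬ Nonempty (G ≃g (⊤ : SimpleGraph (Fin 3)))) :
    3 ≤ {z : ℂ | (edgeCoverPoly G).eval z = 0}.ncard := by
  classical
  by_contra hlt
  have hroots : {z : ℂ | (edgeCoverPoly G).eval z = 0}.ncard ≤ 2 := by omega
  have hd : ∀ v, 2 ≤ G.degree v := fun v => hmin ▸ G.minDegree_le_degree v
  have hne : Nonempty V := hc.nonempty
  obtain ⟨v0⟩ := hne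
  have hn3 : 3 ≤ Fintype.card V := by
    have := hd v0
    have := G.degree_lt_card_verts v0
    omega
  set m := G.edgeFinset.card with hm
  have hsumdeg : ∑ v, G.degree v = 2 * m := G.sum_degrees_eq_twice_card_edges
  have hnm : Fintype.card V ≤ m := by
    have h1 : ∑ v : V, 2 ≤ ∑ v, G.degree v := sum_le_sum fun v _ => hd v
    rw [sum_const, card_univ, smul_eq_mul, hsumdeg] at h1
    omega
  set P := edgeCoverPoly G with hP
  have hcoeff : ∀ i, P.coeff i = (numCovers G i : ℂ) := coeff_poly G
  have htop : P.coeff m = 1 := by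
    rw [hcoeff, numCovers_top G hd, Nat.cast_one]
  have hdegle : P.natDegree ≤ m := by
    rw [natDegree_le_iff_coeff_eq_zero]
    intro N hN
    rw [hcoeff, numCovers_eq_zero_of_lt G hN, Nat.cast_zero]
  have hdeg : P.natDegree = m :=
    natDegree_eq_of_le_of_coeff_ne_zero hdegle (by rw [htop]; exact one_ne_zero)
  have hmonic : P.Monic := by
    rw [Monic, leadingCoeff, hdeg, htop]
  have hP0 : P.eval 0 = 0 := by
    rw [← coeff_zero_eq_eval_zero, hcoeff]
    have : numCovers G 0 = 0 := by
      unfold numCovers
      rw [card_eq_zero, filter_eq_empty_iff]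
      intro S hS h0
      rw [card_eq_zero] at h0
      subst h0
      obtain ⟨e, he, _⟩ := ((mem_covers G).1 hS).2 v0
      simp at he
    rw [this, Nat.cast_zero]
  have hm1 : P.coeff (m - 1) = m := by
    rw [hcoeff, numCovers_sub_one G hd (by omega)]
  obtain ⟨a, b, c, ha1, hb1, hab, hbc, hform⟩ :=
    poly_form P m hmonic hdeg hP0 (by omega) hm1 hroots (fun i => ⟨_, hcoeff i⟩)
  have hcf : ∀ j, (numCovers G (j + a) : ℂ) = (c : ℂ) ^ (b - j) * (b.choose j : ℂ) := by
    intro j
    rw [← hcoeff, hform, coeff_X_pow_mul, coeff_X_add_C_pow]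
  have hlow : ∀ S ∈ covers G, a ≤ S.card := by
    intro S hS
    by_contra hlt'
    have h1 : P.coeff S.card = 0 := by
      rw [hform, coeff_X_pow_mul', if_neg hlt']
    rw [hcoeff] at h1
    have h2 : numCovers G S.card = 0 := by exact_mod_cast h1
    unfold numCovers at h2
    rw [card_eq_zero, filter_eq_empty_iff] at h2
    exact h2 hS rfl
  have hcount : (covers G).card = (1 + c) ^ b := by
    have h1 := eval_poly G 1
    rw [← hP, hform] at h1
    simp only [eval_mul, eval_pow, eval_X, eval_add, eval_C, one_pow, one_mul, sum_const,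
      nsmul_eq_mul, mul_one] at h1
    exact_mod_cast h1.symm
  have hsign : ∑ S ∈ covers G, (-1 : ℤ) ^ S.card = (-1) ^ a * (-1 + c) ^ b := by
    have h1 := eval_poly G (-1)
    rw [← hP, hform] at h1
    simp only [eval_mul, eval_pow, eval_X, eval_add, eval_C] at h1
    exact_mod_cast h1.symm
  have hc2 : 2 ≤ c := by
    by_contra h
    have : c ≤ 1 := by omega
    have : b * c ≤ b * 1 := Nat.mul_le_mul_left _ this
    omega
  -- the number of degree two vertices when `c = 2`
  set n2 := (univ.filter (fun v => G.degree v = 2)).card with hn2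
  have hn2b : c = 2 → n2 = b := by
    intro hc'
    have hm2 : m = 2 * b := by rw [← hbc, hc']; ring
    have hb2 : 2 ≤ b := by omega
    have h1 := numCovers_sub_two G hd (by omega)
    have h2 := hcf (b - 2)
    rw [show b - 2 + a = m - 2 by omega, show b - (b - 2) = 2 by omega,
      Nat.choose_symm hb2, hc'] at h2
    have h3 : numCovers G (m - 2) = 2 ^ 2 * b.choose 2 := by exact_mod_cast h2
    rw [← hm, h3, ← hn2, hm2] at h1
    obtain ⟨k, rfl⟩ : ∃ k, b = k + 1 := ⟨b - 1, by omega⟩
    have e1 : (k + 1).choose 2 * 2 = (k + 1) * k := by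
      rw [Nat.choose_two_right]
      exact Nat.div_mul_cancel (by simpa using Nat.even_mul_pred_self (k + 1) |>.two_dvd)
    have e2 : (2 * (k + 1)).choose 2 * 2 = (2 * (k + 1)) * (2 * k + 1) := by
      rw [Nat.choose_two_right]
      exact Nat.div_mul_cancel (by simpa using Nat.even_mul_pred_self (2 * (k + 1)) |>.two_dvd)
    nlinarith
  rcases Nat.lt_or_ge (Fintype.card V + 1) (2 * a) with hcase | hcase
  · -- the main case
    have heven : Even (Fintype.card V + (2 * a - Fintype.card V - 2)) := by
      rw [Nat.even_iff]; omega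
    obtain ⟨A, F, hfam, hF⟩ := barrier G (2 * a - Fintype.card V - 2) heven (by
      rintro ⟨U, m', hU, hm'⟩
      obtain ⟨S, hS, hS2⟩ := exists_cover G hd U m' hm'
      have := hlow S hS
      omega)
    have hnonempty : ∀ O ∈ F, O.Nonempty := by
      intro O hO
      rw [← card_pos]; exact (hfam.odd O hO).pos
    have hA : A.Nonempty := by
      rw [nonempty_iff_ne_empty]
      rintro rfl
      have h2 : 1 < F.card := by simp only [card_empty] at hF; omega
      obtain ⟨O, hO, O', hO', hne'⟩ := one_lt_card.1 h2
      have hall : ∀ O ∈ F, O = univ := by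
        intro O hO
        apply closed_eq_univ G hc O (hnonempty O hO)
        intro x hx y hxy
        rcases hfam.closed O hO x hx y hxy with h | h
        · exact h
        · simp at h
      exact hne' ((hall O hO).trans (hall O' hO').symm)
    obtain ⟨u, hu⟩ := hA
    have huO : ∀ O ∈ F, u ∉ O := fun O hO h => disjoint_left.1 (hfam.disjA O hO) h hu
    have hincdisj : ∀ O ∈ F, ∀ O' ∈ F, O ≠ O' → Disjoint (inc G O) (inc G O') := by
      intro O hO O' hO' hne'
      rw [disjoint_left]
      intro e he he'
      rw [mem_inc] at he he'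
      obtain ⟨heE, x, hx, hxe⟩ := he
      obtain ⟨_, y, hy, hye⟩ := he'
      have hxy : x ≠ y := by
        rintro rfl
        exact disjoint_left.1 (hfam.disj O hO O' hO' hne') hx hy
      rw [(Sym2.mem_and_mem_iff hxy).1 ⟨hxe, hye⟩, SimpleGraph.mem_edgeFinset] at heE
      rcases hfam.closed O hO x hx y heE with h | h
      · exact disjoint_left.1 (hfam.disj O hO O' hO' hne') h hy
      · exact disjoint_left.1 (hfam.disjA O' hO') hy h
    have hbi : (F.biUnion (inc G)).card = ∑ O ∈ F, (inc G O).card := by
      apply card_biUnion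
      intro O hO O' hO' hne'
      exact hincdisj O hO O' hO' hne'
    have hbisub : F.biUnion (inc G) ⊆ G.edgeFinset := by
      intro e he
      obtain ⟨O, _, heO⟩ := mem_biUnion.1 he
      exact ((mem_inc G).1 heO).1
    have hle1 : ∑ O ∈ F, (inc G O).card ≤ m := by
      rw [← hbi]; exact card_le_card hbisub
    have hle2 : ∀ O ∈ F, O.card + 1 ≤ (inc G O).card := fun O hO =>
      card_inc_ge G hc hd u O (huO O hO) (hnonempty O hO)
    have hle3 : ∑ O ∈ F, (O.card + 1) ≤ ∑ O ∈ F, (inc G O).card := sum_le_sum hle2
    have hsc := hfam.sum_card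
    have hs1 : ∑ O ∈ F, (O.card + 1) = ∑ O ∈ F, O.card + F.card := by
      rw [sum_add_distrib, sum_const, smul_eq_mul, mul_one]
    have h2a : 2 * a ≤ m := by omega
    have hceq : c = 2 := by
      have h1 : m ≤ 2 * b := by omega
      have h2 : b * c ≤ b * 2 := by omega
      have := Nat.le_of_mul_le_mul_left h2 (by omega)
      omega
    have hm2 : m = 2 * b := by rw [← hbc, hceq]; ring
    have heq : ∑ O ∈ F, (O.card + 1) = ∑ O ∈ F, (inc G O).card := by omega
    have heqO := (sum_eq_sum_iff_of_le hle2).1 heq
    have hfull : F.biUnion (inc G) = G.edgeFinset := by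
      apply eq_of_subset_of_card_le hbisub
      rw [hbi]; omega
    have hfinal := covers_card_lt G hd u F hfam.disj huO (by
      intro e he
      rw [← hfull, mem_biUnion] at he
      exact he) (by
      intro O hO
      exact locCov_le G hc hd u O (huO O hO) (hfam.odd O hO) (heqO O hO).symm)
    rw [hcount, hceq, ← hn2, hn2b hceq] at hfinal
    norm_num at hfinal
  · -- small cases
    rcases Nat.lt_or_ge c 3 with hc3 | hc3
    · have hceq : c = 2 := by omega
      have hm2 : m = 2 * b := by rw [← hbc, hceq]; ring
      have hn2b' := hn2b hceq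
      have hdn : 3 * Fintype.card V ≤ 2 * m + n2 := by
        rw [← hsumdeg, hn2, card_filter, ← sum_add_distrib]
        have h3 : 3 * Fintype.card V = ∑ v : V, 3 := by
          rw [sum_const, card_univ, smul_eq_mul, mul_comm]
        rw [h3]
        apply sum_le_sum
        intro v _
        have := hd v
        split_ifs <;> omega
      have hb3 : b = 2 ∨ b = 3 := by omega
      rcases hb3 with hb3 | hb3
      · -- `m = 4`
        have hn : Fintype.card V = 3 := by omega
        have h1 : ∑ v, G.degree v ≤ ∑ v : V, 2 := by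
          apply sum_le_sum
          intro v _
          have := G.degree_lt_card_verts v
          omega
        rw [sum_const, card_univ, smul_eq_mul, hsumdeg] at h1
        omega
      · have hn : Fintype.card V = 5 := by omega
        have h1 := sign_special G hn (by omega)
        have ha3 : a = 3 := by omega
        rw [hsign, ha3, hb3, hceq] at h1
        norm_num at h1
    · -- the triangle
      have h1 : b * 3 ≤ m := by rw [← hbc]; exact Nat.mul_le_mul_left _ hc3
      have hn : Fintype.card V = 3 := by omega
      apply hK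
      have hG : G = ⊤ := by
        ext x y
        rw [SimpleGraph.top_adj]
        refine ⟨fun h => h.ne, fun hxy => ?_⟩
        by_contra hnadj
        have hsub : G.neighborFinset x ⊆ (univ.erase x).erase y := by
          intro z hz
          rw [SimpleGraph.mem_neighborFinset] at hz
          refine mem_erase.2 ⟨?_, mem_erase.2 ⟨hz.ne', mem_univ _⟩⟩
          rintro rfl
          exact hnadj hz
        have h2 := card_le_card hsub
        rw [SimpleGraph.card_neighborFinset_eq_degree, card_erase_of_mem, card_erase_of_mem
          (mem_univ _), card_univ, hn] at h2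
        · have := hd x
          omega
        · exact mem_erase.2 ⟨hxy.symm, mem_univ _⟩
      let e : V ≃ Fin 3 := Fintype.equivFinOfCardEq hn
      refine ⟨⟨e, ?_⟩⟩
      intro x y
      rw [hG]
      simp

end Pool.Agent.U376.ECov
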